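import Pool.Agent.W561.Sallee.Final

set_option autoImplicit false

namespace Pool.Agent.Results.MP_30679c_gt.FarthestPoint

open Pool.Agent.W561.Sallee

/-- Let `d ≥ 2` and let `γ` be a closed curve in `ℝ^d` of length `π`, with image `C`. The minimum
over `x ∈ C` of the distance `δ_x` of `x` to a farthest point of `C` is at most `1`, and it is `1`
if and only if `C` is the relative boundary of a plane convex body of constant width `1`. -/
theorem result : ∀ d : ℕ, 2 ≤ d → ∀ γ : ℝ → EuclideanSpace ℝ (Fin d), Continuous γ →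
    Function.Periodic γ 1 → eVariationOn γ (Set.Icc 0 1) = ENNReal.ofReal Real.pi →
    IsLeast (farDist (Set.range γ) '' Set.range γ) (minFar (Set.range γ)) ∧
    minFar (Set.range γ) ≤ 1 ∧
    (minFar (Set.range γ) = 1 ↔ IsWidthOneBoundary (Set.range γ)) := by
  intro d _ γ hγ hp hlen
  refine ⟨minFar_isLeast ?_ (Set.range_nonempty γ), main_thm hγ hp hlen⟩
  have h1 : Set.range γ = γ '' Set.Icc 0 1 := by
    apply Set.Subset.antisymm
    · rintro _ ⟨s, rfl⟩
      obtain ⟨s', hs', e⟩ := hp.exists_mem_Ico₀ one_pos s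
      exact ⟨s', ⟨hs'.1, hs'.2.le⟩, e.symm⟩
    · exact Set.image_subset_range _ _
  rw [h1]
  exact isCompact_Icc.image hγ

end Pool.Agent.Results.MP_30679c_gt.FarthestPoint
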